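import Pool.Agent.Lib.MP_da63d3_lc.Main

/-! Directed Feedback Vertex Set parameterized by the solution size has no polynomial kernel
unless NP is contained in coNP/poly. -/

namespace Pool.Agent.Results.MP_da63d3_lc.NoPolyKernel

open Pool.Agent.Lib.MP_da63d3_lc

theorem result : ¬ (N68a2faeb.NP ⊆ coNPpoly) → ¬ HasPolyKernel :=
  fun hNP hk => hNP (np_subset_of_kernel hk)

end Pool.Agent.Results.MP_da63d3_lc.NoPolyKernel
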