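import Pool.Agent.Lib.MP_da63d3_lc.Clique

/-! A polynomial parameter transformation from Clique parameterized by `k log n` to Directed
Feedback Vertex Set parameterized by the solution size. -/

namespace Pool.Agent.Results.MP_da63d3_lc.WKOneHard

open Pool.Agent.Lib.MP_da63d3_lc

theorem result : ∃ red : Inst → Inst, N68a2faeb.IsPolyTime red ∧ ∀ I : Inst,
    (¬ (SimpleGraph.fromRel (digraphOf I.1).Adj).CliqueFree I.2.length ↔ Yes (red I)) ∧
      (red I).2.length ≤ 5 * I.2.length ^ 2 * (2 * Nat.log 2 I.1.length + 3) :=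
  clique_ppt

end Pool.Agent.Results.MP_da63d3_lc.WKOneHard
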